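import Pool.Agent.Helper89.HY.St3
import Pool.Agent.Helper28.SP.M_NPW

/-! # Project HY3: module F1W (the untranslated count) -/

set_option autoImplicit false

namespace Pool.Agent.Helper36.HY

open Finset
open Pool.Agent.Helper56.SW (N)
open Pool.Agent.Helper28.SP (SG zP sP wP W cnt red)
open Pool.Agent.Helper89.HY

open Classical in
private theorem cnt3 {G ι : Type} [Group G] (s : Finset ι) (u : ι → G) :
    cnt s u 3 1 = ((s ×ˢ (s ×ˢ s)).filter (fun t => u t.1 * u t.2.1 * u t.2.2 = 1)).card := by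
  rw [Finset.card_filter, Finset.sum_product]
  show ∑ i ∈ s, cnt s u 2 ((u i)⁻¹ * 1) = _
  refine Finset.sum_congr rfl fun i _ => ?_
  rw [Finset.sum_product]
  show ∑ j ∈ s, cnt s u 1 ((u j)⁻¹ * ((u i)⁻¹ * 1)) = _
  refine Finset.sum_congr rfl fun j _ => ?_
  show ∑ k ∈ s, cnt s u 0 ((u k)⁻¹ * ((u j)⁻¹ * ((u i)⁻¹ * 1))) = _
  refine Finset.sum_congr rfl fun k _ => ?_
  have e : (u k)⁻¹ * ((u j)⁻¹ * ((u i)⁻¹ * 1)) = (u i * u j * u k)⁻¹ := by group
  simp only [cnt]
  rw [e]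
  by_cases h : u i * u j * u k = 1
  · rw [if_pos (inv_eq_one.2 h), if_pos h]
  · rw [if_neg (fun h' => h (inv_eq_one.1 h')), if_neg h]

open Classical in
private theorem ff_eq {G ι : Type} [Group G] (s : Finset ι) (z : ι → G) :
    FF s z (fun _ => 1) = cnt (s ×ˢ s) (fun i => (z i.1)⁻¹ * z i.2) 3 1 := by
  rw [cnt3]
  unfold FF
  refine Finset.card_nbij' (fun f => ((f 0, f 1), (f 2, f 3), (f 4, f 5)))
    (fun t => ![t.1.1, t.1.2, t.2.1.1, t.2.1.2, t.2.2.1, t.2.2.2]) ?_ ?_ ?_ ?_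
  · intro f hf
    obtain ⟨h1, h2⟩ := Finset.mem_filter.1 (Finset.mem_coe.1 hf)
    rw [Fintype.mem_piFinset] at h1
    refine Finset.mem_coe.2 (Finset.mem_filter.2 ⟨?_, ?_⟩)
    · simp only [Finset.mem_product]
      exact ⟨⟨h1 0, h1 1⟩, ⟨h1 2, h1 3⟩, h1 4, h1 5⟩
    · simp only [mul_one] at h2
      simp only [← mul_assoc]
      exact h2
  · intro t ht
    obtain ⟨h1, h2⟩ := Finset.mem_filter.1 (Finset.mem_coe.1 ht)
    simp only [Finset.mem_product] at h1
    refine Finset.mem_coe.2 (Finset.mem_filter.2 ⟨?_, ?_⟩)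
    · rw [Fintype.mem_piFinset]
      intro i
      fin_cases i
      · exact h1.1.1
      · exact h1.1.2
      · exact h1.2.1.1
      · exact h1.2.1.2
      · exact h1.2.2.1
      · exact h1.2.2.2
    · simp only [← mul_assoc] at h2
      simp only [mul_one]
      exact h2
  · intro f _
    funext i
    fin_cases i <;> rfl
  · intro t _
    rfl

/-- MODULE F1W. -/
theorem hF1W : StF1W := by
  intro c a b A B hc
  have h := Pool.Agent.Helper28.SP.NPW.thm' c a b 3 A B hc (by norm_num)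
  have e : W (sP A B) (wP a b) c 3 1 = FF (range (2 * A + 1) ×ˢ range (2 * B + 1))
      (fun i : ℕ × ℕ => (red c (zP a b i) : SG c)) (fun _ => 1) := by
    rw [ff_eq]
    unfold W wP sP
    rw [map_one]
    simp only [map_mul, map_inv]
  rw [e] at h
  exact h

end Pool.Agent.Helper36.HY
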